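import Pool.Agent.Lib.MP_c82d9a_nt.One

/-!
# A `q`-congruence with weight `[3k+1]` and factor `8^k`

For all `m > 0` and all odd `n`, the congruence `L_{m,n}(q) ≡ R_{m,n}(q)` modulo `Φ_n(q)^2`
holds if and only if `n ≠ 1` or `m = 1`.  In particular it holds for every odd `n > 1` and every
`m > 0`, and it fails for `n = 1` and every `m > 1`.
-/

namespace Pool.Agent.Results.MP_c82d9a_nt.CongruenceIff

open Pool.Agent.MPc82d9a

theorem result (m n : ℕ) (hm : 0 < m) (hn : Odd n) :
    CongrModSq n (L m n) (R m n) ↔ (n ≠ 1 ∨ m = 1) :=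
  main m n hm hn

end Pool.Agent.Results.MP_c82d9a_nt.CongruenceIff
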